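import Pool.Agent.Helper37_CAP.Stmts

set_option autoImplicit false

open Finset

namespace Pool.Agent.CAP.H46

lemma poly_bound {c u : ℝ} (hc : 0 < c) (hu : 0 ≤ u) :
    (1 + u ^ 2) ^ 2 * Real.exp (-(c * u)) ≤ 2 + 48 / c ^ 4 := by
  have h0 : 0 ≤ c * u := by positivity
  have h1 := Real.pow_div_factorial_le_exp (c * u) h0 4
  have h2 : ((Nat.factorial 4 : ℕ) : ℝ) = 24 := by norm_num [Nat.factorial]
  rw [h2] at h1
  have hE : 0 < Real.exp (c * u) := Real.exp_pos _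
  have h3 : 1 ≤ Real.exp (c * u) := Real.one_le_exp h0
  rw [Real.exp_neg, ← div_eq_mul_inv, div_le_iff₀ hE]
  have h4 : (1 + u ^ 2) ^ 2 ≤ 2 + 2 * u ^ 4 := by nlinarith [sq_nonneg (1 - u ^ 2)]
  have h5 : u ^ 4 = 24 / c ^ 4 * ((c * u) ^ 4 / 24) := by field_simp
  have h6 : 0 < 24 / c ^ 4 := by positivity
  have h7 : u ^ 4 ≤ 24 / c ^ 4 * Real.exp (c * u) := by
    rw [h5]; exact mul_le_mul_of_nonneg_left h1 h6.le
  have h8 : (2 + 48 / c ^ 4) * Real.exp (c * u)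
      = 2 * Real.exp (c * u) + 2 * (24 / c ^ 4 * Real.exp (c * u)) := by ring
  rw [h8]
  linarith

theorem rest (hCNT : CNT) (hCBA : CBA) (hCBC : CBC) (hCBD : CBD) (hCBE : CBE) (hCBF : CBF) :
    ∃ c K : ℝ, 0 < c ∧ c ≤ 1 ∧ 0 < K ∧ ∀ X z : ℕ, 2 ≤ X →
      z = ⌊Real.exp (c * Real.sqrt (Real.log X))⌋₊ → 2 ≤ z →
      (cnt (fun n => n ≤ z) X : ℝ) + cnt (E1 z) X + cnt (E3 z) X + cnt (E4 z) X +
        cnt (E5 z) X + cnt (E6 z) X ≤ K * X * Real.exp (-(c * Real.sqrt (Real.log X))) := by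
  obtain ⟨C, hC, hD⟩ := hCBD
  set c : ℝ := 1 / (12 * (C + 1)) with hc
  have hc0 : 0 < c := by positivity
  have hc1 : c ≤ 1 := by
    rw [hc, div_le_one (by positivity)]; linarith
  have hcC : (C + 1) * c = 1 / 12 := by rw [hc]; field_simp
  set K1 : ℝ := 2 + 48 / c ^ 4 with hK1
  have hK10 : 0 < K1 := by positivity
  refine ⟨c, Real.exp 1 + (8 + 4 * Real.exp 1) + (8 * K1 + 16 * Real.exp 242) + 3 + 64 * K1 +
    32 * K1, hc0, hc1, by positivity, fun X z hX hz hz2 => ?_⟩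
  have hXr : (2 : ℝ) ≤ X := by exact_mod_cast hX
  have hX0 : (0 : ℝ) < X := by linarith
  have hLpos : 0 < Real.log X := Real.log_pos (by linarith)
  set u : ℝ := Real.sqrt (Real.log X) with hu
  have hu0 : 0 < u := Real.sqrt_pos.2 hLpos
  have huL : Real.log X = u ^ 2 := (Real.sq_sqrt hLpos.le).symm
  have hXu : (X : ℝ) = Real.exp (u ^ 2) := by rw [← huL, Real.exp_log hX0]
  set E : ℝ := Real.exp (c * u) with hE
  have hE0 : 0 < E := Real.exp_pos _
  set w : ℝ := Real.exp (-(c * u)) with hw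
  have hw0 : 0 < w := Real.exp_pos _
  have hw1 : w ≤ 1 := Real.exp_le_one_iff.2 (by nlinarith)
  have hEw : E * w = 1 := by rw [hE, hw, ← Real.exp_add]; simp
  have hz2' : (2 : ℝ) ≤ z := by exact_mod_cast hz2
  have hz0 : (0 : ℝ) < z := by linarith
  have hzE : (z : ℝ) ≤ E := by rw [hz]; exact Nat.floor_le hE0.le
  have hEz : E ≤ 2 * z := by
    have := Nat.lt_floor_add_one E
    rw [← hz] at this
    linarith
  have hzinv : 1 / (z : ℝ) ≤ 2 * w := by
    rw [div_le_iff₀ hz0]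
    nlinarith
  have hzinv0 : 0 < 1 / (z : ℝ) := by positivity
  -- t0
  have t0 : (cnt (fun n => n ≤ z) X : ℝ) ≤ Real.exp 1 * (X * w) := by
    have h1 : (cnt (fun n => n ≤ z) X : ℝ) ≤ z := by exact_mod_cast hCNT.2.2.2.2.2 z X
    refine (h1.trans hzE).trans ?_
    rw [hXu, hw, hE, ← Real.exp_add, ← Real.exp_add]
    apply Real.exp_le_exp.2
    nlinarith [sq_nonneg (u - c)]
  have one_le : 1 ≤ Real.exp 1 * (X * w) := by
    rw [hXu, hw, ← Real.exp_add, ← Real.exp_add]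
    apply Real.one_le_exp
    nlinarith [sq_nonneg (u - c)]
  have sqrt_le : Real.sqrt X ≤ Real.exp 1 * (X * w) := by
    have h1 : Real.sqrt X = Real.exp (u ^ 2 / 2) := by
      rw [hXu, Real.sqrt_eq_iff_mul_self_eq (Real.exp_pos _).le (Real.exp_pos _).le,
        ← Real.exp_add]
      ring_nf
    rw [h1, hXu, hw, ← Real.exp_add, ← Real.exp_add]
    apply Real.exp_le_exp.2
    nlinarith [sq_nonneg (u - c)]
  -- t1
  have t1 : (cnt (E1 z) X : ℝ) ≤ (8 + 4 * Real.exp 1) * (X * w) := by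
    have h1 := hCBA z X hz2 (by omega)
    have h2 : 4 * (X : ℝ) / z ≤ 8 * (X * w) := by
      have : 4 * (X : ℝ) / z = 4 * X * (1 / z) := by ring
      rw [this]
      have := mul_le_mul_of_nonneg_left hzinv (show (0 : ℝ) ≤ 4 * X by positivity)
      linarith
    linarith
  have hpb := poly_bound hc0 hu0.le
  rw [← hw, ← hK1] at hpb
  have hp0 : 0 ≤ u ^ 2 := sq_nonneg u
  -- t3
  have t3 : (cnt (E3 z) X : ℝ) ≤ (8 * K1 + 16 * Real.exp 242) * (X * w) := by
    have h1 := hCBC z X hz2 (by omega)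
    rw [huL] at h1
    have h2 : 2 * (1 + u ^ 2) ^ 2 * (X : ℝ) / z ^ 2 ≤ 8 * K1 * (X * w) := by
      have e1 : 2 * (1 + u ^ 2) ^ 2 * (X : ℝ) / z ^ 2
          = 2 * (1 + u ^ 2) ^ 2 * (X : ℝ) * (1 / z) ^ 2 := by ring
      rw [e1]
      have h3 : (1 / (z : ℝ)) ^ 2 ≤ (2 * w) ^ 2 := pow_le_pow_left₀ hzinv0.le hzinv 2
      calc 2 * (1 + u ^ 2) ^ 2 * (X : ℝ) * (1 / z) ^ 2
          ≤ 2 * (1 + u ^ 2) ^ 2 * (X : ℝ) * (2 * w) ^ 2 :=
            mul_le_mul_of_nonneg_left h3 (by positivity)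
        _ = 8 * (X * w) * ((1 + u ^ 2) ^ 2 * w) := by ring
        _ ≤ 8 * (X * w) * K1 := mul_le_mul_of_nonneg_left hpb (by positivity)
        _ = _ := by ring
    have h4 : 2 * (z : ℝ) ^ 10 * (1 + u ^ 2) * Real.sqrt X ≤ 16 * Real.exp 242 * (X * w) := by
      have e2 : Real.sqrt X = Real.exp (u ^ 2 / 2) := by
        rw [hXu, Real.sqrt_eq_iff_mul_self_eq (Real.exp_pos _).le (Real.exp_pos _).le,
          ← Real.exp_add]
        ring_nf
      have h5 : (z : ℝ) ^ 10 ≤ Real.exp (10 * (c * u)) := by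
        have : Real.exp (10 * (c * u)) = E ^ 10 := by
          rw [hE, ← Real.exp_nat_mul]; norm_num
        rw [this]
        exact pow_le_pow_left₀ hz0.le hzE 10
      have h6 : 1 + u ^ 2 ≤ 8 * Real.exp (u ^ 2 / 8) := by
        have := Real.add_one_le_exp (u ^ 2 / 8)
        linarith
      have h7 : 2 * (z : ℝ) ^ 10 * (1 + u ^ 2) * Real.sqrt X ≤
          2 * Real.exp (10 * (c * u)) * (8 * Real.exp (u ^ 2 / 8)) * Real.exp (u ^ 2 / 2) := by
        rw [e2]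
        apply mul_le_mul_of_nonneg_right _ (Real.exp_pos _).le
        apply mul_le_mul (by linarith) h6 (by positivity) (by positivity)
      refine h7.trans ?_
      have e3 : 2 * Real.exp (10 * (c * u)) * (8 * Real.exp (u ^ 2 / 8)) * Real.exp (u ^ 2 / 2)
          = 16 * Real.exp (10 * (c * u) + u ^ 2 / 8 + u ^ 2 / 2) := by
        rw [Real.exp_add, Real.exp_add]; ring
      have e4 : 16 * Real.exp 242 * ((X : ℝ) * w) = 16 * Real.exp (242 + (u ^ 2 + -(c * u))) := by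
        rw [hXu, hw, Real.exp_add, Real.exp_add]; ring
      rw [e3, e4]
      apply mul_le_mul_of_nonneg_left _ (by norm_num)
      apply Real.exp_le_exp.2
      nlinarith [sq_nonneg (u - 44 * c), mul_nonneg hc0.le hc0.le]
    linarith
  -- t4
  have t4 : (cnt (E4 z) X : ℝ) ≤ 3 * (X * w) := by
    have h1 := hD z X hz2 (by omega)
    rw [huL] at h1
    refine h1.trans ?_
    have hlz0 : 0 < Real.log z := Real.log_pos (by linarith)
    have hlz : Real.log z ≤ c * u := by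
      have := Real.log_le_log hz0 hzE
      rwa [hE, Real.log_exp] at this
    have h2 : u * (C + 1) ≤ u ^ 2 / (12 * Real.log z) := by
      rw [le_div_iff₀ (by positivity)]
      have h3 : 12 * Real.log z ≤ 12 * (c * u) := by linarith
      have h4 : u * (C + 1) * (12 * Real.log z) ≤ u * (C + 1) * (12 * (c * u)) :=
        mul_le_mul_of_nonneg_left h3 (by positivity)
      have h5 : u * (C + 1) * (12 * (c * u)) = 12 * ((C + 1) * c) * u ^ 2 := by ring
      rw [h5, hcC] at h4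
      linarith
    have h3 : C * Real.log z ≤ C * (c * u) := mul_le_mul_of_nonneg_left hlz hC.le
    have h4 : Real.exp (C * Real.log z - u ^ 2 / (12 * Real.log z)) ≤ w := by
      rw [hw]
      apply Real.exp_le_exp.2
      have h5 : (C + 1) * c * u ≤ (C + 1) * 1 * u := by
        apply mul_le_mul_of_nonneg_right _ hu0.le
        exact mul_le_mul_of_nonneg_left hc1 (by linarith)
      nlinarith
    calc 3 * (X : ℝ) * Real.exp (C * Real.log z - u ^ 2 / (12 * Real.log z))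
        ≤ 3 * X * w := mul_le_mul_of_nonneg_left h4 (by positivity)
      _ = _ := by ring
  have hw4 : (1 / (z : ℝ)) ^ 4 ≤ 16 * (w * w) := by
    have h3 : (1 / (z : ℝ)) ^ 4 ≤ (2 * w) ^ 4 := pow_le_pow_left₀ hzinv0.le hzinv 4
    have h4 : (2 * w) ^ 4 ≤ 16 * (w * w) := by
      have : w ^ 2 ≤ 1 := pow_le_one₀ hw0.le hw1
      nlinarith [mul_nonneg (mul_nonneg hw0.le hw0.le) (sub_nonneg.2 this)]
    exact h3.trans h4
  have hlin : (1 + u ^ 2) * w ≤ K1 := by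
    refine le_trans ?_ hpb
    apply mul_le_mul_of_nonneg_right _ hw0.le
    nlinarith
  -- t5
  have t5 : (cnt (E5 z) X : ℝ) ≤ 64 * K1 * (X * w) := by
    have h1 := hCBE z X hz2 (by omega)
    refine h1.trans ?_
    have h2 : Real.log ((X : ℝ) + 1) ≤ 1 + u ^ 2 := by
      have h3 : Real.log ((X : ℝ) + 1) ≤ Real.log (2 * X) :=
        Real.log_le_log (by linarith) (by linarith)
      rw [Real.log_mul (by norm_num) hX0.ne', huL] at h3
      have h4 : Real.log 2 ≤ 1 := by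
        have := Real.log_two_lt_d9
        linarith
      linarith
    have e1 : ((X : ℝ) + 1) * (1 + Real.log ((X : ℝ) + 1)) / z ^ 4
        = ((X : ℝ) + 1) * (1 + Real.log ((X : ℝ) + 1)) * (1 / z) ^ 4 := by ring
    rw [e1]
    have hl0 : 0 ≤ Real.log ((X : ℝ) + 1) := Real.log_nonneg (by linarith)
    calc ((X : ℝ) + 1) * (1 + Real.log ((X : ℝ) + 1)) * (1 / z) ^ 4
        ≤ (2 * X) * (2 * (1 + u ^ 2)) * (16 * (w * w)) := by
          apply mul_le_mul _ hw4 (by positivity) (by positivity)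
          apply mul_le_mul (by linarith) (by nlinarith) (by linarith) (by positivity)
      _ = 64 * (X * w) * ((1 + u ^ 2) * w) := by ring
      _ ≤ 64 * (X * w) * K1 := mul_le_mul_of_nonneg_left hlin (by positivity)
      _ = _ := by ring
  -- t6
  have t6 : (cnt (E6 z) X : ℝ) ≤ 32 * K1 * (X * w) := by
    have h1 := hCBF z X hz2 (by omega)
    rw [huL] at h1
    refine h1.trans ?_
    have e1 : 2 * (X : ℝ) * (1 + u ^ 2) / z ^ 4 = 2 * (X : ℝ) * (1 + u ^ 2) * (1 / z) ^ 4 := by ring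
    rw [e1]
    calc 2 * (X : ℝ) * (1 + u ^ 2) * (1 / z) ^ 4
        ≤ 2 * (X : ℝ) * (1 + u ^ 2) * (16 * (w * w)) :=
          mul_le_mul_of_nonneg_left hw4 (by positivity)
      _ = 32 * (X * w) * ((1 + u ^ 2) * w) := by ring
      _ ≤ 32 * (X * w) * K1 := mul_le_mul_of_nonneg_left hlin (by positivity)
      _ = _ := by ring
  have e : (Real.exp 1 + (8 + 4 * Real.exp 1) + (8 * K1 + 16 * Real.exp 242) + 3 + 64 * K1 +
      32 * K1) * X * w = Real.exp 1 * (X * w) + (8 + 4 * Real.exp 1) * (X * w) +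
      (8 * K1 + 16 * Real.exp 242) * (X * w) + 3 * (X * w) + 64 * K1 * (X * w) +
      32 * K1 * (X * w) := by ring
  rw [e]
  linarith

/-- composite orders are covered by the exceptional sets -/
lemma cover (hARI : ARI) (hCLA : CLA) {z n : ℕ} (hz : 2 ≤ z) (hn : IsOrder n) (hp : ¬ n.Prime) :
    n ≤ z ∨ E1 z n ∨ E3 z n ∨ E4 z n ∨ E5 z n ∨ E6 z n ∨ E7 z n := by
  have h2 : 2 ≤ n := by
    obtain ⟨P, L, h, -⟩ := hn
    exact h.two_le
  exact hCLA z n hz h2 hp (hARI n hn)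

lemma sum6 (hCNT : CNT) (z X : ℕ) :
    (cnt (fun n => n ≤ z ∨ E1 z n ∨ E3 z n ∨ E4 z n ∨ E5 z n ∨ E6 z n) X : ℝ) ≤
      (cnt (fun n => n ≤ z) X : ℝ) + cnt (E1 z) X + cnt (E3 z) X + cnt (E4 z) X +
        cnt (E5 z) X + cnt (E6 z) X := by
  have h := hCNT.2.1
  have h1 := h (fun n => n ≤ z) (fun n => E1 z n ∨ E3 z n ∨ E4 z n ∨ E5 z n ∨ E6 z n) X
  have h2 := h (E1 z) (fun n => E3 z n ∨ E4 z n ∨ E5 z n ∨ E6 z n) X
  have h3 := h (E3 z) (fun n => E4 z n ∨ E5 z n ∨ E6 z n) X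
  have h4 := h (E4 z) (fun n => E5 z n ∨ E6 z n) X
  have h5 := h (E5 z) (E6 z) X
  have h6 : cnt (fun n => n ≤ z ∨ E1 z n ∨ E3 z n ∨ E4 z n ∨ E5 z n ∨ E6 z n) X ≤
      cnt (fun n => n ≤ z) X + cnt (E1 z) X + cnt (E3 z) X + cnt (E4 z) X +
        cnt (E5 z) X + cnt (E6 z) X := by omega
  exact_mod_cast h6

theorem fna (hARI : ARI) (hCLA : CLA) (hCNT : CNT) (hCBA : CBA) (hCBC : CBC) (hCBD : CBD)
    (hCBE : CBE) (hCBF : CBF) : FNA := by
  obtain ⟨c, K, hc0, hc1, hK0, hrest⟩ := rest hCNT hCBA hCBC hCBD hCBE hCBF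
  refine ⟨c, K + 2, hc0, fun X hX => ?_⟩
  have hXr : (2 : ℝ) ≤ X := by exact_mod_cast hX
  have hX0 : (0 : ℝ) < X := by linarith
  set E : ℝ := Real.exp (c * Real.sqrt (Real.log X)) with hE
  have hE0 : 0 < E := Real.exp_pos _
  set w : ℝ := Real.exp (-(c * Real.sqrt (Real.log X))) with hw
  have hw0 : 0 < w := Real.exp_pos _
  have hEw : E * w = 1 := by rw [hE, hw, ← Real.exp_add]; simp
  rcases Nat.lt_or_ge ⌊E⌋₊ 2 with hlt | hge
  · have h1 := (hCNT.2.2.2.2.1 (fun n => IsOrder n ∧ ¬ n.Prime ∧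
      ¬ ∃ m q q' : ℕ, 2 ≤ m ∧ (m : ℝ) ≤ E ∧ q.Prime ∧
        q'.Prime ∧ n + 1 = (m + 1) * q ∧ n - 1 = (m - 1) * q') X)
    have h2 : E < 2 := by
      have := (Nat.floor_lt hE0.le).1 hlt
      exact_mod_cast this
    have h3 : 1 ≤ 2 * w := by nlinarith
    have h4 : (X : ℝ) ≤ (K + 2) * X * w := by
      have h5 : (X : ℝ) * 1 ≤ X * (2 * w) := mul_le_mul_of_nonneg_left h3 hX0.le
      have h6 : 0 ≤ K * (X * w) := by positivity
      nlinarith
    exact le_trans (by exact_mod_cast h1) h4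
  · set z := ⌊E⌋₊ with hz
    have hzE : (z : ℝ) ≤ E := Nat.floor_le hE0.le
    have h1 := hrest X z hX hz hge
    have h2 := sum6 hCNT z X
    have h3 : cnt (fun n => IsOrder n ∧ ¬ n.Prime ∧
      ¬ ∃ m q q' : ℕ, 2 ≤ m ∧ (m : ℝ) ≤ E ∧ q.Prime ∧
        q'.Prime ∧ n + 1 = (m + 1) * q ∧ n - 1 = (m - 1) * q') X ≤
        cnt (fun n => n ≤ z ∨ E1 z n ∨ E3 z n ∨ E4 z n ∨ E5 z n ∨ E6 z n) X := by
      apply hCNT.1
      rintro n hn1 hnX ⟨ho, hnp, hno⟩
      rcases cover hARI hCLA hge ho hnp with h | h | h | h | h | h | h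
      · exact Or.inl h
      · exact Or.inr (Or.inl h)
      · exact Or.inr (Or.inr (Or.inl h))
      · exact Or.inr (Or.inr (Or.inr (Or.inl h)))
      · exact Or.inr (Or.inr (Or.inr (Or.inr (Or.inl h))))
      · exact Or.inr (Or.inr (Or.inr (Or.inr (Or.inr h))))
      · exfalso
        obtain ⟨m, q, q', hm2, hmz, hq, hq', e1, e2⟩ := h
        refine hno ⟨m, q, q', hm2, ?_, hq, hq', e1, by omega⟩
        have : (m : ℝ) ≤ z := by exact_mod_cast hmz
        linarith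
    have h4 : (cnt (fun n => IsOrder n ∧ ¬ n.Prime ∧
      ¬ ∃ m q q' : ℕ, 2 ≤ m ∧ (m : ℝ) ≤ E ∧ q.Prime ∧
        q'.Prime ∧ n + 1 = (m + 1) * q ∧ n - 1 = (m - 1) * q') X : ℝ) ≤
        (cnt (fun n => n ≤ z ∨ E1 z n ∨ E3 z n ∨ E4 z n ∨ E5 z n ∨ E6 z n) X : ℝ) := by
      exact_mod_cast h3
    have h5 : K * X * w ≤ (K + 2) * X * w := by
      have : 0 ≤ X * w := by positivity
      nlinarith
    linarith

theorem fnb (hARI : ARI) (hCLA : CLA) (hCNT : CNT) (hCBA : CBA) (hCBC : CBC) (hCBD : CBD)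
    (hCBE : CBE) (hCBF : CBF) (hSVB : SVB) : FNB := by
  obtain ⟨c, K, hc0, hc1, hK0, hrest⟩ := rest hCNT hCBA hCBC hCBD hCBE hCBF
  obtain ⟨C, hC0, hS⟩ := hSVB
  set L0 : ℝ := 16 + (1 / c) ^ 2 with hL0
  have hL00 : 0 < L0 := by positivity
  refine ⟨L0 ^ 2 + (K * (2 + 48 / c ^ 4) + C), fun X hX => ?_⟩
  have hXr : (2 : ℝ) ≤ X := by exact_mod_cast hX
  have hX0 : (0 : ℝ) < X := by linarith
  have hLpos : 0 < Real.log X := Real.log_pos (by linarith)
  set u : ℝ := Real.sqrt (Real.log X) with hu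
  have hu0 : 0 < u := Real.sqrt_pos.2 hLpos
  have huL : Real.log X = u ^ 2 := (Real.sq_sqrt hLpos.le).symm
  have hXu : (X : ℝ) = Real.exp (u ^ 2) := by rw [← huL, Real.exp_log hX0]
  have hq0 : 0 ≤ (X : ℝ) / Real.log X ^ 2 := by positivity
  have hKc : 0 ≤ K * (2 + 48 / c ^ 4) := by positivity
  have esum : (L0 ^ 2 + (K * (2 + 48 / c ^ 4) + C)) * X / Real.log X ^ 2
      = L0 ^ 2 * (X / Real.log X ^ 2) + (K * (2 + 48 / c ^ 4)) * (X / Real.log X ^ 2)
        + C * (X / Real.log X ^ 2) := by ring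
  rw [esum]
  rcases lt_or_ge (Real.log X) L0 with hsmall | hbig
  · have h1 := (hCNT.2.2.2.2.1 (fun n => IsOrder n ∧ ¬ n.Prime) X)
    have h2 : (cnt (fun n => IsOrder n ∧ ¬ n.Prime) X : ℝ) ≤ X := by exact_mod_cast h1
    have h3 : (X : ℝ) ≤ L0 ^ 2 * (X / Real.log X ^ 2) := by
      rw [← mul_div_assoc, le_div_iff₀ (by positivity)]
      have : Real.log X ^ 2 ≤ L0 ^ 2 := pow_le_pow_left₀ hLpos.le hsmall.le 2
      nlinarith
    have h4 := mul_nonneg hKc hq0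
    have h5 := mul_nonneg hC0.le hq0
    linarith
  · set E : ℝ := Real.exp (c * u) with hE
    have hE0 : 0 < E := Real.exp_pos _
    set w : ℝ := Real.exp (-(c * u)) with hw
    have hw0 : 0 < w := Real.exp_pos _
    have hu4 : 4 ≤ u := by
      rw [hu]
      apply Real.le_sqrt_of_sq_le
      have : 0 ≤ (1 / c) ^ 2 := by positivity
      linarith
    have huc : 1 / c ≤ u := by
      rw [hu]
      apply Real.le_sqrt_of_sq_le
      linarith
    have hcu : 1 ≤ c * u := by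
      rw [div_le_iff₀ hc0] at huc
      linarith
    have hE2 : 2 ≤ E := by
      have := Real.add_one_le_exp (c * u)
      linarith
    set z := ⌊E⌋₊ with hz
    have hge : 2 ≤ z := Nat.le_floor (by exact_mod_cast hE2)
    have hzE : (z : ℝ) ≤ E := Nat.floor_le hE0.le
    have h1 := hrest X z hX hz hge
    have h2 := sum6 hCNT z X
    have hz4 : z ^ 4 ≤ X := by
      have h3 : (z : ℝ) ^ 4 ≤ X := by
        calc (z : ℝ) ^ 4 ≤ E ^ 4 := pow_le_pow_left₀ (Nat.cast_nonneg _) hzE 4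
          _ = Real.exp (4 * (c * u)) := by rw [hE, ← Real.exp_nat_mul]; norm_num
          _ ≤ Real.exp (u ^ 2) := by
            apply Real.exp_le_exp.2
            nlinarith
          _ = X := hXu.symm
      exact_mod_cast h3
    have h3 : cnt (fun n => IsOrder n ∧ ¬ n.Prime) X ≤
        cnt (fun n => (n ≤ z ∨ E1 z n ∨ E3 z n ∨ E4 z n ∨ E5 z n ∨ E6 z n) ∨ E7 z n) X := by
      apply hCNT.1
      rintro n hn1 hnX ⟨ho, hnp⟩
      rcases cover hARI hCLA hge ho hnp with h | h | h | h | h | h | h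
      · exact Or.inl (Or.inl h)
      · exact Or.inl (Or.inr (Or.inl h))
      · exact Or.inl (Or.inr (Or.inr (Or.inl h)))
      · exact Or.inl (Or.inr (Or.inr (Or.inr (Or.inl h))))
      · exact Or.inl (Or.inr (Or.inr (Or.inr (Or.inr (Or.inl h)))))
      · exact Or.inl (Or.inr (Or.inr (Or.inr (Or.inr (Or.inr h)))))
      · exact Or.inr h
    have h4 := hCNT.2.1 (fun n => n ≤ z ∨ E1 z n ∨ E3 z n ∨ E4 z n ∨ E5 z n ∨ E6 z n) (E7 z) X
    have h5 : (cnt (fun n => IsOrder n ∧ ¬ n.Prime) X : ℝ) ≤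
        (cnt (fun n => n ≤ z ∨ E1 z n ∨ E3 z n ∨ E4 z n ∨ E5 z n ∨ E6 z n) X : ℝ) +
          cnt (E7 z) X := by exact_mod_cast h3.trans h4
    have h6 := hS z X hX hz4
    have h7 : K * X * w ≤ K * (2 + 48 / c ^ 4) * (X / Real.log X ^ 2) := by
      have hpb := poly_bound hc0 hu0.le
      rw [← hw] at hpb
      rw [huL, ← mul_div_assoc, le_div_iff₀ (by positivity)]
      have h8 : (u ^ 2) ^ 2 * w ≤ 2 + 48 / c ^ 4 := by
        refine le_trans ?_ hpb
        apply mul_le_mul_of_nonneg_right _ hw0.le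
        nlinarith [sq_nonneg u]
      calc K * X * w * (u ^ 2) ^ 2 = (K * X) * ((u ^ 2) ^ 2 * w) := by ring
        _ ≤ (K * X) * (2 + 48 / c ^ 4) := mul_le_mul_of_nonneg_left h8 (by positivity)
        _ = _ := by ring
    have h8 : C * X / Real.log X ^ 2 = C * (X / Real.log X ^ 2) := by ring
    rw [h8] at h6
    have h9 : 0 ≤ L0 ^ 2 * ((X : ℝ) / Real.log X ^ 2) := by positivity
    linarith

end Pool.Agent.CAP.H46
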